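import Pool.Agent.H93.BD.Targets

/-!
# Ball inflation
-/

set_option autoImplicit false

open MeasureTheory
open scoped ENNReal NNReal

namespace Pool.Agent.H51.BD

open Pool.Agent.H93.BD

theorem gw_meas (m N : ℕ) (r1 r2 : ℝ) (c : E m) : Measurable (gw m N r1 r2 c) := by
  unfold gw
  fun_prop

theorem gw_pos (m N : ℕ) (r1 r2 : ℝ) (h1 : 0 < r1) (h2 : 0 < r2) (c : E m) (x : X m) :
    0 < gw m N r1 r2 c x := by
  unfold gw
  rw [ENNReal.ofReal_pos]
  positivity

theorem av_mono {n : ℕ} {ρ : ℝ} {f g : (Fin n → ℝ) → ℝ≥0∞} {s0 : Fin n → ℝ}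
    (h : ∀ s, f s ≤ g s) : av n ρ f s0 ≤ av n ρ g s0 := by
  unfold av
  gcongr
  exact h _

theorem av_mul {n : ℕ} {ρ : ℝ} {f : (Fin n → ℝ) → ℝ≥0∞} {s0 : Fin n → ℝ} (K : ℝ≥0∞)
    (hK : K ≠ ∞) : av n ρ (fun s => K * f s) s0 = K * av n ρ f s0 := by
  unfold av
  rw [lintegral_const_mul' _ _ hK]
  ring

theorem cv_mul {m : ℕ} (K : ℝ≥0∞) (hK : K ≠ ∞) (u k : X m → ℝ≥0∞) (x : X m) :
    cv (fun z => K * u z) k x = K * cv u k x := by
  unfold cv
  simp only [mul_assoc]
  rw [lintegral_const_mul' _ _ hK]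

theorem cv_mono {m : ℕ} {u v k : X m → ℝ≥0∞} (h : ∀ z, u z ≤ v z) (x : X m) :
    cv u k x ≤ cv v k x := by
  unfold cv
  refine lintegral_mono fun z => ?_
  gcongr
  exact h z

theorem pf_BIN (hKUU : T_KUU) (hJEN : T_JEN) (hTRA : T_TRA) (hCVA : T_CVA) (hWM : T_WM) :
    T_BIN := by
  intro m hm p q hp hq hpq R1 Λ C1
  have hq0 : 0 < q := by linarith
  have hm1 : (0 : ℝ) < (m : ℝ) + 1 := by positivity
  set g : ℝ := p / (q * (m + 1)) with hg
  have hg0 : 0 < g := by positivity
  have hgm : g * m ≤ 1 := by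
    rw [hg, div_mul_eq_mul_div, div_le_one (by positivity)]
    exact hpq
  obtain ⟨C, hC, hK⟩ := hKUU m hm g hg0 hgm R1 Λ
  obtain ⟨CW, hCW⟩ := hWM m (m + 2) le_rfl
  set κ : ℝ := g * (m + 1) with hκ
  have hκ0 : 0 < κ := by positivity
  set M : ℝ := (max 1 C1) ^ κ with hM
  have hM1 : 1 ≤ M := Real.one_le_rpow (le_max_left _ _) hκ0.le
  refine ⟨C * M, one_le_mul_of_one_le_of_one_le hC hM1, ?_⟩
  intro S L hS hL b hb hTr I c hI f hf hfb hloc
  have hS2 : 0 < S ^ 2 := by positivity
  have hS0 : 0 < S := by linarith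
  set t : ℝ := Real.log S / Real.log L + 2 with ht
  have ht1 : 1 ≤ t := by
    have h1 : 0 ≤ Real.log S / Real.log L :=
      div_nonneg (Real.log_nonneg hS) (Real.log_nonneg (by linarith))
    linarith
  set F : (Fin m → ℤ) → X m → ℝ≥0∞ := fun α z => ‖f α z‖ₑ ^ q with hF
  have hFm : ∀ α, Measurable (F α) := by
    intro α
    have := (hf α).measurable
    rw [hF]
    fun_prop
  set a : (Fin m → ℤ) → X m → ℝ≥0∞ := fun α => cv (F α) (kw m S) with ha
  set A : (Fin m → ℤ) → X m → ℝ≥0∞ := fun α => cv (F α) (kw m (S ^ 2)) with hA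
  have ham : ∀ α, Measurable (a α) := fun α =>
    (hCVA m (F α) (kw m S) (kw m S) (hFm α) (gw_meas _ _ _ _ _) (gw_meas _ _ _ _ _)).2.2.1
  set P : ℝ := p / (2 * (m + 1)) with hP
  have hP0 : 0 < P := by positivity
  have h2q : 0 < 2 / q := by positivity
  have hPg : (2 / q) * P = g := by
    rw [hP, hg]
    field_simp
  set H : X m → ℝ≥0∞ := fun x => ∏ i, (∑ α ∈ I i, a α x ^ (2 / q)) ^ P with hH
  set H2 : X m → ℝ≥0∞ := fun x => ∏ i, (∑ α ∈ I i, A α x ^ (2 / q)) ^ P with hH2
  have hHm : Measurable H := by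
    rw [hH]
    refine Finset.measurable_prod _ fun i _ => ?_
    refine Measurable.pow_const ?_ _
    refine Finset.measurable_sum _ fun α _ => ?_
    exact (ham α).pow_const _
  have hAfin : ∀ α x, A α x ≠ ∞ := by
    intro α x
    obtain ⟨B, hB⟩ := hfb α
    have h1 : A α x ≤ ENNReal.ofReal B ^ q * ENNReal.ofReal CW := by
      rw [hA]
      simp only
      unfold cv
      calc ∫⁻ z, F α z * kw m (S ^ 2) (x - z)
          ≤ ∫⁻ z, ENNReal.ofReal B ^ q * kw m (S ^ 2) (x - z) := by
            refine lintegral_mono fun z => ?_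
            have h2 : ‖f α z‖ₑ ≤ ENNReal.ofReal B := by
              rw [← ofReal_norm]
              exact ENNReal.ofReal_le_ofReal (hB z)
            have h3 : F α z ≤ ENNReal.ofReal B ^ q := ENNReal.rpow_le_rpow h2 hq0.le
            gcongr
        _ = ENNReal.ofReal B ^ q * ∫⁻ z, kw m (S ^ 2) (x - z) := by
            rw [lintegral_const_mul']
            exact ENNReal.rpow_ne_top_of_nonneg hq0.le ENNReal.ofReal_ne_top
        _ ≤ ENNReal.ofReal B ^ q * ENNReal.ofReal CW := by
            gcongr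
            have h4 := (hCVA m (fun _ => 1) (kw m (S ^ 2)) (kw m (S ^ 2)) measurable_const
              (gw_meas _ _ _ _ _) (gw_meas _ _ _ _ _)).1 x
            unfold cv at h4
            simp only [one_mul, mul_one] at h4
            rw [h4]
            exact hCW _ _ hS2 hS2 0
    exact ne_top_of_le_ne_top (ENNReal.mul_ne_top
      (ENNReal.rpow_ne_top_of_nonneg hq0.le ENNReal.ofReal_ne_top) ENNReal.ofReal_ne_top) h1
  have hA0 : ∀ α x, A α x = 0 → ∀ y, a α y = 0 := by
    intro α x h y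
    rw [hA] at h
    simp only at h
    unfold cv at h
    have hkm : Measurable fun z => kw m (S ^ 2) (x - z) :=
      (gw_meas m (m + 2) (S ^ 2) (S ^ 2) 0).comp (measurable_const.sub measurable_id)
    have hmm : Measurable fun z => F α z * kw m (S ^ 2) (x - z) := (hFm α).mul hkm
    rw [lintegral_eq_zero_iff hmm] at h
    have h1 : ∀ᵐ z, F α z = 0 := by
      filter_upwards [h] with z hz
      have hz' : F α z * kw m (S ^ 2) (x - z) = 0 := hz
      exact (mul_eq_zero.1 hz').resolve_right (gw_pos _ _ _ _ hS2 hS2 _ _).ne'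
    rw [ha]
    simp only
    unfold cv
    rw [← lintegral_zero (μ := (volume : Measure (X m)))]
    refine lintegral_congr_ae ?_
    filter_upwards [h1] with z hz
    rw [hz, zero_mul]
  have key : ∀ x, av (m + 1) (S ^ 2) (fun s => H (x + Am b s)) 0 ≤
      ENNReal.ofReal ((C * M) ^ t) * H2 x := by
    intro x
    set J : Fin (m + 1) → Finset (Fin m → ℤ) := fun i => (I i).filter fun α => A α x ≠ 0 with hJ
    have hJI : ∀ i, J i ⊆ I i := fun i => Finset.filter_subset _ _
    have hsa : ∀ i y, ∑ α ∈ I i, a α y ^ (2 / q) = ∑ α ∈ J i, a α y ^ (2 / q) := by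
      intro i y
      refine (Finset.sum_subset (hJI i) fun α h1 h2 => ?_).symm
      have h3 : A α x = 0 := by
        by_contra h4
        exact h2 (Finset.mem_filter.2 ⟨h1, h4⟩)
      rw [hA0 α x h3, ENNReal.zero_rpow_of_pos h2q]
    have hsA : ∀ i, ∑ α ∈ I i, A α x ^ (2 / q) = ∑ α ∈ J i, A α x ^ (2 / q) := by
      intro i
      refine (Finset.sum_subset (hJI i) fun α h1 h2 => ?_).symm
      have h3 : A α x = 0 := by
        by_contra h4
        exact h2 (Finset.mem_filter.2 ⟨h1, h4⟩)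
      rw [h3, ENNReal.zero_rpow_of_pos h2q]
    set μ : Fin (m + 1) → (Fin m → ℤ) → ℝ≥0∞ := fun i α =>
      A α x ^ (2 / q) / ∑ j ∈ J i, A j x ^ (2 / q) with hμ
    have hSfin : ∀ i, ∑ j ∈ J i, A j x ^ (2 / q) ≠ ∞ := fun i =>
      ENNReal.sum_ne_top.2 fun α _ => ENNReal.rpow_ne_top_of_nonneg h2q.le (hAfin α x)
    have hnum : ∀ α, A α x ^ (2 / q) ≠ ∞ := fun α =>
      ENNReal.rpow_ne_top_of_nonneg h2q.le (hAfin α x)
    have hμfin : ∀ i, ∀ α ∈ J i, μ i α ≠ ∞ := by
      intro i α hα
      have h1 : A α x ^ (2 / q) ≠ 0 := by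
        have h2 : A α x ≠ 0 := (Finset.mem_filter.1 hα).2
        rw [Ne, ENNReal.rpow_eq_zero_iff_of_pos h2q]
        exact h2
      refine ENNReal.div_ne_top (hnum α) ?_
      intro h3
      exact h1 ((Finset.sum_eq_zero_iff.1 h3) α hα)
    have hμsum : ∀ i, ∑ α ∈ J i, μ i α ≤ 1 := by
      intro i
      rw [hμ]
      simp only [div_eq_mul_inv]
      rw [← Finset.sum_mul, ← div_eq_mul_inv]
      exact ENNReal.div_self_le_one
    -- the coefficients
    set w : Fin (m + 1) → (Fin m → ℤ) → ℝ≥0∞ := fun i α =>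
      if α ∈ J i then μ i α / A α x else 0 with hw
    have hwfin : ∀ i α, w i α ≠ ∞ := by
      intro i α
      rw [hw]
      simp only
      split_ifs with h
      · exact ENNReal.div_ne_top (hμfin i α h) (Finset.mem_filter.1 h).2
      · exact ENNReal.zero_ne_top
    set u : Fin (m + 1) → (Fin m → ℤ) → X m → ℝ≥0∞ := fun i α z => w i α * F α z with hu
    have hum : ∀ i α, Measurable (u i α) := fun i α => (hFm α).const_mul _
    have hKU := hK S L hS hL b hb hTr J c (fun i α hα => hI i α (hJI i hα)) u hum x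
    have hcvu : ∀ i, ∀ α ∈ J i, cv (u i α) (kw m (S ^ 2)) x = μ i α := by
      intro i α hα
      rw [hu]
      simp only
      rw [cv_mul _ (hwfin i α), hw]
      simp only [if_pos hα]
      exact ENNReal.div_mul_cancel (Finset.mem_filter.1 hα).2 (hAfin α x)
    have hone : ∏ i, (∑ α ∈ J i, cv (u i α) (kw m (S ^ 2)) x) ^ g ≤ 1 := by
      refine Finset.prod_le_one' fun i _ => ?_
      rw [Finset.sum_congr rfl fun α hα => hcvu i α hα]
      exact ENNReal.rpow_le_one (hμsum i) hg0.le
    set D : X m → ℝ≥0∞ := fun y => ∏ i, (∑ α ∈ J i,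
      cv (cv (u i α) (pk m S (c α))) (kw m S) y) ^ g with hD
    have hpt : ∀ y, H y ≤ (H2 x * ENNReal.ofReal M) * D y := by
      intro y
      have h1 : ∀ i, (∑ α ∈ I i, a α y ^ (2 / q)) ^ P ≤ (∑ α ∈ I i, A α x ^ (2 / q)) ^ P *
          (ENNReal.ofReal (max 1 C1) ^ g * (∑ α ∈ J i,
            cv (cv (u i α) (pk m S (c α))) (kw m S) y) ^ g) := by
        intro i
        rw [hsa, hsA]
        have h2 := hJEN _ (J i) q hq (fun α => a α y) (fun α => A α x)
          (fun α hα => ⟨(Finset.mem_filter.1 hα).2, hAfin α x⟩)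
        have h3 : ∑ α ∈ J i, (A α x ^ (2 / q) / ∑ j ∈ J i, A j x ^ (2 / q)) *
            (a α y / A α x) ≤ ENNReal.ofReal (max 1 C1) * ∑ α ∈ J i,
            cv (cv (u i α) (pk m S (c α))) (kw m S) y := by
          rw [Finset.mul_sum]
          refine Finset.sum_le_sum fun α hα => ?_
          have h4 : (A α x ^ (2 / q) / ∑ j ∈ J i, A j x ^ (2 / q)) * (a α y / A α x) =
              w i α * a α y := by
            rw [hw]
            simp only [if_pos hα]
            rw [hμ, div_eq_mul_inv (a α y), div_eq_mul_inv _ (A α x)]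
            ring
          rw [h4]
          have h5 : ∀ z, F α z ≤ ENNReal.ofReal (max 1 C1) * cv (F α) (pk m S (c α)) z := by
            intro z
            refine (hloc i α (hJI i hα) z).trans ?_
            gcongr
            exact le_max_right _ _
          have h6 : a α y ≤ ENNReal.ofReal (max 1 C1) *
              cv (cv (F α) (pk m S (c α))) (kw m S) y := by
            rw [← cv_mul _ ENNReal.ofReal_ne_top]
            exact cv_mono h5 y
          have h7 : cv (cv (u i α) (pk m S (c α))) (kw m S) y =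
              w i α * cv (cv (F α) (pk m S (c α))) (kw m S) y := by
            rw [← cv_mul _ (hwfin i α)]
            congr 1
            funext z
            rw [← cv_mul _ (hwfin i α)]
          rw [h7]
          calc w i α * a α y ≤ w i α * (ENNReal.ofReal (max 1 C1) *
              cv (cv (F α) (pk m S (c α))) (kw m S) y) := by gcongr
            _ = _ := by ring
        calc (∑ α ∈ J i, a α y ^ (2 / q)) ^ P
            ≤ ((∑ α ∈ J i, A α x ^ (2 / q)) * (ENNReal.ofReal (max 1 C1) * ∑ α ∈ J i,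
              cv (cv (u i α) (pk m S (c α))) (kw m S) y) ^ (2 / q)) ^ P := by
              gcongr
              refine h2.trans ?_
              gcongr
          _ = _ := by
              rw [ENNReal.mul_rpow_of_nonneg _ _ hP0.le, ← ENNReal.rpow_mul, hPg,
                ENNReal.mul_rpow_of_nonneg _ _ hg0.le]
      calc H y ≤ ∏ i, ((∑ α ∈ I i, A α x ^ (2 / q)) ^ P *
          (ENNReal.ofReal (max 1 C1) ^ g * (∑ α ∈ J i,
            cv (cv (u i α) (pk m S (c α))) (kw m S) y) ^ g)) :=
            Finset.prod_le_prod' fun i _ => h1 i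
        _ = H2 x * (ENNReal.ofReal (max 1 C1) ^ g) ^ (m + 1) * D y := by
            rw [Finset.prod_mul_distrib, Finset.prod_mul_distrib, Finset.prod_const,
              Finset.card_univ, Fintype.card_fin, mul_assoc]
        _ = (H2 x * ENNReal.ofReal M) * D y := by
            congr 2
            rw [← ENNReal.rpow_natCast, ← ENNReal.rpow_mul, hM,
              ← ENNReal.ofReal_rpow_of_nonneg (by positivity) hκ0.le, hκ]
            push_cast
            rfl
    have hH2fin : H2 x ≠ ∞ := by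
      rw [hH2]
      refine ENNReal.prod_ne_top fun i _ => ENNReal.rpow_ne_top_of_nonneg hP0.le ?_
      exact ENNReal.sum_ne_top.2 fun α _ => hnum α
    calc av (m + 1) (S ^ 2) (fun s => H (x + Am b s)) 0
        ≤ av (m + 1) (S ^ 2) (fun s => (H2 x * ENNReal.ofReal M) * D (x + Am b s)) 0 :=
          av_mono fun s => hpt _
      _ = (H2 x * ENNReal.ofReal M) * av (m + 1) (S ^ 2) (fun s => D (x + Am b s)) 0 :=
          av_mul _ (ENNReal.mul_ne_top hH2fin ENNReal.ofReal_ne_top)
      _ ≤ (H2 x * ENNReal.ofReal M) * (ENNReal.ofReal (C ^ t) * 1) := by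
          gcongr
          refine hKU.trans ?_
          gcongr
      _ = ENNReal.ofReal (C ^ t * M) * H2 x := by
          rw [ENNReal.ofReal_mul (by positivity)]
          ring
      _ ≤ ENNReal.ofReal ((C * M) ^ t) * H2 x := by
          gcongr
          rw [Real.mul_rpow (by linarith) (by linarith)]
          refine mul_le_mul_of_nonneg_left ?_ (by positivity)
          calc M = M ^ (1 : ℝ) := (Real.rpow_one M).symm
            _ ≤ M ^ t := Real.rpow_le_rpow_of_exponent_le hM1 ht1
  calc AA m p q S I f = ∫⁻ x, H x := rfl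
    _ = ∫⁻ x, av (m + 1) (S ^ 2) (fun s => H (x + Am b s)) 0 := (hTRA m b (S ^ 2) hS2 H hHm).symm
    _ ≤ ∫⁻ x, ENNReal.ofReal ((C * M) ^ t) * H2 x := lintegral_mono key
    _ = ENNReal.ofReal ((C * M) ^ t) * ∫⁻ x, H2 x :=
        lintegral_const_mul' _ _ ENNReal.ofReal_ne_top
    _ = ENNReal.ofReal ((C * M) ^ t) * AA m p q (S ^ 2) I f := rfl

end Pool.Agent.H51.BD
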